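import Mathlib
import Pool.Agent.Q299.Pref.Asym

/-!
# The connectivity threshold of the mutual preference graph is `c = 1`
-/

namespace Pool.Agent.Results.MP_ba8b4a_pr.ThresholdOne

open Finset Pool.Agent.Q299.Pref MeasureTheory Filter Topology

lemma tendsto_L : Tendsto (fun n : ℕ => Real.log n) atTop atTop :=
  Real.tendsto_log_atTop.comp tendsto_natCast_atTop_atTop

lemma tendsto_pow_div (m : ℕ) : Tendsto (fun n : ℕ => Real.log n ^ m / n) atTop (𝓝 0) := by
  have h := (Real.isLittleO_pow_log_id_atTop (n := m)).tendsto_div_nhds_zero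
  exact h.comp tendsto_natCast_atTop_atTop

lemma tendsto_exp_lin {κ : ℝ} (hκ : 0 < κ) (C : ℝ) :
    Tendsto (fun n : ℕ => Real.exp (C - κ * Real.log n)) atTop (𝓝 0) := by
  apply Real.tendsto_exp_atBot.comp
  have h1 : Tendsto (fun n : ℕ => κ * Real.log n) atTop atTop :=
    tendsto_L.const_mul_atTop hκ
  have h2 := tendsto_neg_atTop_atBot.comp h1
  exact tendsto_atBot_add_const_left atTop C h2

lemma tendsto_pow_exp {κ : ℝ} (hκ : 0 < κ) (m : ℕ) :
    Tendsto (fun n : ℕ => Real.log n ^ m * Real.exp (-(κ * Real.log n))) atTop (𝓝 0) := by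
  have h1 := Real.tendsto_pow_mul_exp_neg_atTop_nhds_zero m
  have h2 : Tendsto (fun n : ℕ => κ * Real.log n) atTop atTop :=
    tendsto_L.const_mul_atTop hκ
  have h3 := (h1.comp h2).const_mul ((κ ^ m)⁻¹)
  rw [mul_zero] at h3
  refine h3.congr fun n => ?_
  simp only [Function.comp_apply]
  rw [mul_pow]
  field_simp

section Upper

variable (μ : ℕ → Measure ℝ) [∀ n, IsProbabilityMeasure (μ n)] [∀ n, NullSingletonClass (μ n)]

lemma upper {c : ℝ} (hc : 1 < c) (k : ℕ → ℕ) (hk : ∀ᶠ n : ℕ in atTop, c * Real.log n ≤ k n) :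
    Tendsto (fun n => P (μ n) n {C | ¬ (prefGraph (k n) C).Connected}) atTop (𝓝 0) := by
  set a : ℝ := (1 + c) / 2 with ha
  have ha1 : 1 < a := by rw [ha]; linarith
  have hac : a < c := by rw [ha]; linarith
  -- `u` and `κ`
  set u : ℝ := (1 - a / c) / 2 with hu
  have hac' : a / c < 1 := by rw [div_lt_one (by linarith)]; exact hac
  have hac0 : 0 < a / c := by positivity
  have hu0 : 0 < u := by rw [hu]; linarith
  have hu1 : u < 1 := by rw [hu]; linarith
  have heu : Real.exp u ≤ 1 / (1 - u) := by
    have h1 : 1 - u ≤ Real.exp (-u) := by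
      have := Real.add_one_le_exp (-u)
      linarith
    rw [Real.exp_neg] at h1
    rw [le_div_iff₀ (by linarith)]
    calc Real.exp u * (1 - u) ≤ Real.exp u * (Real.exp u)⁻¹ :=
          mul_le_mul_of_nonneg_left h1 (Real.exp_pos _).le
      _ = 1 := mul_inv_cancel₀ (Real.exp_pos _).ne'
  set κ : ℝ := u * c - a * (Real.exp u - 1) with hκ
  have hκ0 : 0 < κ := by
    have h1 : a * (Real.exp u - 1) ≤ a * (u / (1 - u)) := by
      refine mul_le_mul_of_nonneg_left ?_ (by linarith)
      have : 1 / (1 - u) - 1 = u / (1 - u) := by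
        have : 1 - u ≠ 0 := by linarith
        field_simp
        ring
      linarith
    have h2 : a * (u / (1 - u)) < u * c := by
      rw [mul_div_assoc', div_lt_iff₀ (by linarith)]
      have h3 : a < c * (1 - u) := by
        have h4 : c * (1 - u) = (c + a) / 2 := by
          rw [hu]
          have : c ≠ 0 := by linarith
          field_simp
          ring
        rw [h4]
        linarith
      nlinarith
    rw [hκ]
    linarith
  set m : ℕ := ⌈2 / κ⌉₊ with hm
  have hmκ : 2 ≤ m * κ := by
    have := Nat.le_ceil (2 / κ)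
    rw [div_le_iff₀ hκ0] at this
    exact this
  -- `t`, `b`, `η`, `γ`
  set b : ℝ := (1 + a) / 2 with hb
  have hb1 : 1 < b := by rw [hb]; linarith
  have hba : b < a := by rw [hb]; linarith
  set t : ℝ := -Real.log (1 - b / a) with ht
  have hba' : b / a < 1 := by rw [div_lt_one (by linarith)]; exact hba
  have hba0 : 0 < b / a := by positivity
  have ht0 : 0 ≤ t := by
    rw [ht]
    have := Real.log_nonpos (by linarith : 0 ≤ 1 - b / a) (by linarith)
    linarith
  have hexpt : 1 - Real.exp (-t) = b / a := by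
    rw [ht, neg_neg, Real.exp_log (by linarith)]
    ring
  set η : ℝ := (b - 1) / (2 * b) with hη
  have hη0 : 0 < η := by rw [hη]; apply div_pos <;> linarith
  set γ : ℝ := min ((b - 1) / 2) (1 / 2) with hγ
  have hγ0 : 0 < γ := by rw [hγ]; apply lt_min <;> linarith
  have hγ1 : 1 + γ ≤ (1 - η) * b := by
    have h1 : (1 - η) * b = 1 + (b - 1) / 2 := by
      rw [hη]
      have : b ≠ 0 := by linarith
      field_simp
      ring
    rw [h1]
    have := min_le_left ((b - 1) / 2) (1 / 2)
    linarith
  have hγ2 : γ ≤ b / 2 := by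
    have := min_le_right ((b - 1) / 2) (1 / 2)
    linarith
  -- the error term
  set err : ℕ → ℝ := fun n => 2 * Real.exp (t * m + Real.log 2 / η - γ * Real.log n) +
    (a * Real.exp (u * m)) ^ m * (Real.log n ^ m * Real.exp (-(1 * Real.log n))) with herr
  have herr0 : Tendsto err atTop (𝓝 0) := by
    have h1 := (tendsto_exp_lin hγ0 (t * m + Real.log 2 / η)).const_mul 2
    have h2 := (tendsto_pow_exp one_pos m).const_mul ((a * Real.exp (u * m)) ^ m)
    have h3 := h1.add h2
    simp only [mul_zero, add_zero] at h3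
    exact h3
  have hev : ∀ᶠ n : ℕ in atTop, P (μ n) n {C | ¬ (prefGraph (k n) C).Connected} ≤
      ENNReal.ofReal (err n) := by
    have e1 : ∀ᶠ n : ℕ in atTop, a + m + 1 < Real.log n := tendsto_L.eventually_gt_atTop _
    have e2 : ∀ᶠ n : ℕ in atTop, Real.log n ^ 2 / n < 1 :=
      (tendsto_pow_div 2).eventually (gt_mem_nhds one_pos)
    have e3 : ∀ᶠ n : ℕ in atTop,
        Real.exp (t * m + Real.log 2 / η - γ * Real.log n) < 1 / 2 :=
      (tendsto_exp_lin hγ0 (t * m + Real.log 2 / η)).eventually (gt_mem_nhds (by norm_num))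
    filter_upwards [e1, e2, e3, hk, eventually_ge_atTop 1] with n h1 h2 h3 h4 h5
    have hn0 : (0 : ℝ) < n := by
      have : 0 < n := by omega
      exact_mod_cast this
    have hm0 : (0 : ℝ) ≤ m := Nat.cast_nonneg m
    have hL0 : 0 < Real.log n := by linarith
    have hmk : m ≤ k n := by
      have h6 : (m : ℝ) ≤ k n := by nlinarith
      exact_mod_cast h6
    set p₁ : ℝ := a * Real.log n / n with hp₁
    set p₂ : ℝ := Real.log n ^ 2 / n with hp₂
    have hp₁0 : 0 < p₁ := by positivity
    have hp₁₂ : p₁ < p₂ := by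
      rw [hp₁, hp₂]
      apply div_lt_div_of_pos_right _ hn0
      rw [sq]
      exact mul_lt_mul_of_pos_right (by linarith) hL0
    have hnp : (n : ℝ) * p₁ = a * Real.log n := by
      rw [hp₁]
      field_simp
    have hub := upper_bound (μ n) (n := n) (m := m) (k := k n) (by omega) hmk hp₁0 hp₁₂ h2
      ht0 hu0.le
    refine hub.trans (ENNReal.ofReal_le_ofReal ?_)
    rw [herr]
    refine add_le_add ?_ ?_
    · have hq : (n : ℝ) * (p₁ * (1 - Real.exp (-t))) = b * Real.log n := by
        rw [hexpt, ← mul_assoc, hnp]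
        have : a ≠ 0 := by linarith
        field_simp
      exact B1_sum (n := n) (m := m) h5 hη0 hγ1 hγ2 (by linarith) ht0 hq
        (mul_nonneg hp₁0.le (by rw [hexpt]; exact hba0.le)) h3.le
    · have hexp : (n : ℝ) = Real.exp (Real.log n) := (Real.exp_log hn0).symm
      have h6 : (n : ℝ) * (p₁ * (Real.exp u - 1)) - u * ((k n : ℝ) - m) ≤
          u * m - κ * Real.log n := by
        rw [← mul_assoc, hnp, hκ]
        have := mul_le_mul_of_nonneg_left h4 hu0.le
        nlinarith
      have h7 : (n : ℝ) * p₁ * Real.exp (n * (p₁ * (Real.exp u - 1)) - u * ((k n : ℝ) - m)) ≤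
          a * Real.log n * (Real.exp (u * m) * Real.exp (-(κ * Real.log n))) := by
        rw [hnp]
        refine mul_le_mul_of_nonneg_left ?_ (by positivity)
        rw [← Real.exp_add]
        apply Real.exp_le_exp.mpr
        linarith
      have h8 : (n : ℝ) * (n * p₁ * Real.exp (n * (p₁ * (Real.exp u - 1)) -
          u * ((k n : ℝ) - m))) ^ m ≤
          n * (a * Real.log n * (Real.exp (u * m) * Real.exp (-(κ * Real.log n)))) ^ m := by
        refine mul_le_mul_of_nonneg_left ?_ hn0.le
        exact pow_le_pow_left₀ (by positivity) h7 m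
      refine h8.trans ?_
      have h9 : (n : ℝ) * (a * Real.log n * (Real.exp (u * m) * Real.exp (-(κ * Real.log n)))) ^ m
          = (a * Real.exp (u * m)) ^ m * (Real.log n ^ m *
            Real.exp (Real.log n + m * (-(κ * Real.log n)))) := by
        rw [Real.exp_add, Real.exp_nat_mul, ← hexp]
        rw [mul_pow, mul_pow, mul_pow, mul_pow]
        ring
      rw [h9]
      refine mul_le_mul_of_nonneg_left ?_ (by positivity)
      refine mul_le_mul_of_nonneg_left ?_ (by positivity)
      apply Real.exp_le_exp.mpr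
      nlinarith
  have h0 : Tendsto (fun n => ENNReal.ofReal (err n)) atTop (𝓝 0) := by
    have := ENNReal.tendsto_ofReal herr0
    rwa [ENNReal.ofReal_zero] at this
  exact tendsto_of_tendsto_of_tendsto_of_le_of_le' tendsto_const_nhds h0
    (Eventually.of_forall fun n => bot_le) hev

lemma upper' {c : ℝ} (hc : 1 < c) (k : ℕ → ℕ) (hk : ∀ᶠ n : ℕ in atTop, c * Real.log n ≤ k n) :
    Tendsto (fun n => P (μ n) n {C | (prefGraph (k n) C).Connected}) atTop (𝓝 1) := by
  have h1 := upper μ hc k hk
  have h2 : Tendsto (fun n => 1 - P (μ n) n {C | ¬ (prefGraph (k n) C).Connected}) atTop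
      (𝓝 (1 - 0)) := ENNReal.Tendsto.sub tendsto_const_nhds h1 (Or.inl ENNReal.one_ne_top)
  rw [tsub_zero] at h2
  refine tendsto_of_tendsto_of_tendsto_of_le_of_le h2 tendsto_const_nhds (fun n => ?_)
    fun n => prob_le_one
  simp only
  rw [tsub_le_iff_right]
  calc (1 : ENNReal) = P (μ n) n Set.univ := measure_univ.symm
    _ ≤ P (μ n) n ({C | (prefGraph (k n) C).Connected} ∪
        {C | ¬ (prefGraph (k n) C).Connected}) := by
        refine measure_mono fun C _ => ?_
        by_cases h : (prefGraph (k n) C).Connected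
        · exact Or.inl h
        · exact Or.inr h
    _ ≤ _ := measure_union_le _ _

end Upper

section Lower

variable (μ : ℕ → Measure ℝ) [∀ n, IsProbabilityMeasure (μ n)] [∀ n, NullSingletonClass (μ n)]

lemma lower {c : ℝ} (hc0 : 0 < c) (hc : c < 1) (k : ℕ → ℕ)
    (hk : ∀ᶠ n : ℕ in atTop, (k n : ℝ) ≤ c * Real.log n) :
    Tendsto (fun n => P (μ n) n {C | (prefGraph (k n) C).Connected}) atTop (𝓝 0) := by
  set a : ℝ := (1 + c) / 2 with ha
  have ha1 : a < 1 := by rw [ha]; linarith
  have hac : c < a := by rw [ha]; linarith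
  have ha0 : 0 < a := by linarith
  set a' : ℝ := (1 + a) / 2 with ha'
  have ha'1 : a' < 1 := by rw [ha']; linarith
  have haa' : a < a' := by rw [ha']; linarith
  set t : ℝ := (a / c - 1) / 2 with ht
  have hac' : 1 < a / c := by rw [one_lt_div hc0]; exact hac
  have ht0 : 0 < t := by rw [ht]; linarith
  have het : t / (1 + t) ≤ 1 - Real.exp (-t) := by
    have h1 : 1 + t ≤ Real.exp t := by
      have := Real.add_one_le_exp t
      linarith
    have h2 : Real.exp (-t) ≤ 1 / (1 + t) := by
      rw [Real.exp_neg, ← one_div]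
      exact one_div_le_one_div_of_le (by linarith) h1
    have h3 : t / (1 + t) = 1 - 1 / (1 + t) := by
      have : 1 + t ≠ 0 := by linarith
      field_simp
      ring
    linarith
  set β : ℝ := 1 - Real.exp (-t) with hβ
  have hβ0 : 0 ≤ β := le_trans (by positivity) het
  have hβ1 : β ≤ 1 := by
    have := Real.exp_pos (-t)
    rw [hβ]; linarith
  set κ : ℝ := a * β - t * c with hκ
  have hκ0 : 0 < κ := by
    have h1 : a * (t / (1 + t)) ≤ a * β := mul_le_mul_of_nonneg_left het ha0.le
    have h2 : t * c < a * (t / (1 + t)) := by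
      rw [mul_div_assoc', lt_div_iff₀ (by linarith)]
      have h3 : c * (1 + t) < a := by
        have h4 : c * (1 + t) = (c + a) / 2 := by
          rw [ht]
          have : c ≠ 0 := by linarith
          field_simp
          ring
        rw [h4]
        linarith
      nlinarith
    rw [hκ]
    linarith
  set err : ℕ → ℝ := fun n =>
    4 * (Real.exp (0 - (1 - a') * Real.log n) + 2 * a * (Real.log n ^ 1 / n)) +
    4 * Real.exp 2 * (Real.log n ^ 2 * Real.exp (-(κ * Real.log n))) +
    Real.exp (0 - 1 * Real.log n) with herr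
  have herr0 : Tendsto err atTop (𝓝 0) := by
    have h1 := tendsto_exp_lin (by linarith : 0 < 1 - a') 0
    have h2 := (tendsto_pow_div 1).const_mul (2 * a)
    have h3 := (h1.add h2).const_mul 4
    have h4 := (tendsto_pow_exp hκ0 2).const_mul (4 * Real.exp 2)
    have h5 := tendsto_exp_lin one_pos 0
    have h6 := (h3.add h4).add h5
    simp only [mul_zero, add_zero] at h6
    exact h6
  have hev : ∀ᶠ n : ℕ in atTop, P (μ n) n {C | (prefGraph (k n) C).Connected} ≤
      ENNReal.ofReal (err n) := by
    have e1 : ∀ᶠ n : ℕ in atTop, 12 < Real.log n := tendsto_L.eventually_gt_atTop _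
    have e2 : ∀ᶠ n : ℕ in atTop, Real.log n ^ 2 / n < 1 :=
      (tendsto_pow_div 2).eventually (gt_mem_nhds one_pos)
    have e3 : ∀ᶠ n : ℕ in atTop, Real.log n ^ 1 / n < min (1 / 2) (1 - a / a') :=
      (tendsto_pow_div 1).eventually (gt_mem_nhds (lt_min (by norm_num) (by
        have : a / a' < 1 := by rw [div_lt_one (by linarith)]; exact haa'
        linarith)))
    filter_upwards [e1, e2, e3, hk, eventually_ge_atTop 2] with n h1 h2 h3 h4 h5
    have hn0 : (0 : ℝ) < n := by
      have : 0 < n := by omega
      exact_mod_cast this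
    have hn2 : (2 : ℝ) ≤ n := by exact_mod_cast h5
    have hL0 : 0 < Real.log n := by linarith
    rw [pow_one] at h3
    set L := Real.log n with hL
    have h3a : L / n < 1 / 2 := h3.trans_le (min_le_left _ _)
    have h3b : L / n < 1 - a / a' := h3.trans_le (min_le_right _ _)
    set p₁ : ℝ := a * L / n with hp₁
    set p₂ : ℝ := L ^ 2 / n with hp₂
    have hp₁0 : 0 < p₁ := by positivity
    have hp₁₂ : p₁ < p₂ := by
      rw [hp₁, hp₂]
      apply div_lt_div_of_pos_right _ hn0
      rw [sq]
      exact mul_lt_mul_of_pos_right (by linarith) hL0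
    have hp₁L : p₁ ≤ L / n := by
      rw [hp₁]
      apply div_le_div_of_nonneg_right _ hn0.le
      nlinarith
    have hp₁h : p₁ ≤ 1 / 2 := by linarith
    have hnp : (n : ℝ) * p₁ = a * L := by
      rw [hp₁]
      field_simp
    have hnp2 : (n : ℝ) * p₂ = L ^ 2 := by
      rw [hp₂]
      field_simp
    have hexp : (n : ℝ) = Real.exp L := (Real.exp_log hn0).symm
    have hub := lower_bound (μ n) (n := n) (k := k n) h5 hp₁0 hp₁₂ h2 ht0.le zero_le_one
    refine hub.trans (ENNReal.ofReal_le_ofReal ?_)
    rw [herr]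
    refine add_le_add (add_le_add ?_ ?_) ?_
    · refine mul_le_mul_of_nonneg_left (add_le_add ?_ ?_) (by norm_num)
      · -- isolated vertices
        have hlog : -(p₁ / (1 - p₁)) ≤ Real.log (1 - p₁) := by
          have h6 := Real.one_sub_inv_le_log_of_pos (by linarith : 0 < 1 - p₁)
          refine le_trans (le_of_eq ?_) h6
          have : 1 - p₁ ≠ 0 := by linarith
          field_simp
          ring
        have h6 : Real.exp (-(a' * L)) ≤ (1 - p₁) ^ (n - 1) := by
          have h7 : (1 - p₁) ^ (n - 1) = Real.exp (((n - 1 : ℕ) : ℝ) * Real.log (1 - p₁)) := by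
            rw [Real.exp_nat_mul, Real.exp_log (by linarith)]
          rw [h7]
          apply Real.exp_le_exp.mpr
          have h8 : (((n - 1 : ℕ) : ℝ)) ≤ n := by
            have : n - 1 ≤ n := Nat.sub_le _ _
            exact_mod_cast this
          have h9 : (0 : ℝ) ≤ ((n - 1 : ℕ) : ℝ) := Nat.cast_nonneg _
          have h10 : 0 ≤ p₁ / (1 - p₁) := div_nonneg hp₁0.le (by linarith)
          have h11 : (n : ℝ) * (p₁ / (1 - p₁)) ≤ a' * L := by
            rw [← mul_div_assoc, hnp, div_le_iff₀ (by linarith)]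
            have h12 : a ≤ a' * (1 - p₁) := by
              have h13 : p₁ ≤ 1 - a / a' := by linarith
              have h14 : a' * (a / a') = a := by
                have : a' ≠ 0 := by linarith
                field_simp
              nlinarith
            nlinarith
          nlinarith
        have h7 : Real.exp ((1 - a') * L) ≤ n * (1 - p₁) ^ (n - 1) := by
          calc Real.exp ((1 - a') * L) = Real.exp L * Real.exp (-(a' * L)) := by
                rw [← Real.exp_add]
                congr 1
                ring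
            _ = n * Real.exp (-(a' * L)) := by rw [← hexp]
            _ ≤ _ := mul_le_mul_of_nonneg_left h6 hn0.le
        calc 1 / (n * (1 - p₁) ^ (n - 1)) ≤ 1 / Real.exp ((1 - a') * L) :=
              one_div_le_one_div_of_le (Real.exp_pos _) h7
          _ = Real.exp (0 - (1 - a') * L) := by
              rw [one_div, ← Real.exp_neg]
              congr 1
              ring
      · rw [pow_one, div_le_iff₀ (by linarith)]
        have h6 : 2 * a * (L / n) = 2 * p₁ := by rw [hp₁]; ring
        rw [h6]
        nlinarith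
    · -- bad pairs
      have h6 : 2 * n * (p₂ - p₁) / (1 - p₁) ≤ 4 * L ^ 2 := by
        rw [div_le_iff₀ (by linarith)]
        have h7 : 2 * (n : ℝ) * (p₂ - p₁) = 2 * (L ^ 2 - a * L) := by
          rw [← hnp, ← hnp2]; ring
        rw [h7]
        have h8 : 0 ≤ a * L := by positivity
        have h9 : 0 ≤ L ^ 2 := by positivity
        nlinarith
      have h7 : t * (k n : ℝ) - ((n - 2 : ℕ) : ℝ) * (p₁ * β) ≤ 2 - κ * L := by
        have h8 : ((n - 2 : ℕ) : ℝ) = n - 2 := by
          rw [Nat.cast_sub h5]; norm_num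
        have h9 : ((n : ℝ) - 2) * (p₁ * β) = a * L * β - 2 * p₁ * β := by
          rw [← hnp]; ring
        have h10 := mul_le_mul_of_nonneg_left h4 ht0.le
        have h11 : p₁ * β ≤ 1 := by nlinarith
        rw [h8, h9, hκ]
        nlinarith
      calc 2 * n * (p₂ - p₁) / (1 - p₁) *
          Real.exp (t * (k n : ℝ) - ((n - 2 : ℕ) : ℝ) * (p₁ * β))
          ≤ 4 * L ^ 2 * Real.exp (2 - κ * L) :=
            mul_le_mul h6 (Real.exp_le_exp.mpr h7) (Real.exp_pos _).le (by positivity)
        _ = 4 * Real.exp 2 * (L ^ 2 * Real.exp (-(κ * L))) := by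
            rw [sub_eq_add_neg, Real.exp_add]; ring
    · -- small degrees in the larger graph
      have h6 : (1 : ℝ) / 2 ≤ 1 - Real.exp (-1) := by
        have h7 : Real.exp (-1) ≤ 1 / 2 := by
          rw [Real.exp_neg, ← one_div]
          apply one_div_le_one_div_of_le (by norm_num)
          have := Real.add_one_le_exp (1 : ℝ)
          linarith
        linarith
      have h7 : ((n - 1 : ℕ) : ℝ) * p₂ ≥ L ^ 2 / 2 := by
        have h8 : ((n - 1 : ℕ) : ℝ) = n - 1 := by
          rw [Nat.cast_sub (by omega)]; norm_num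
        have h9 : 0 < p₂ := by linarith
        rw [h8]
        nlinarith
      have h8 : (1 : ℝ) * (k n : ℝ) - ((n - 1 : ℕ) : ℝ) * (p₂ * (1 - Real.exp (-1))) ≤
          L - L ^ 2 / 4 := by
        have h9 : (k n : ℝ) ≤ L := by nlinarith
        have h10 : L ^ 2 / 4 ≤ ((n - 1 : ℕ) : ℝ) * p₂ * (1 - Real.exp (-1)) := by
          have h11 : 0 ≤ L ^ 2 / 2 := by positivity
          nlinarith
        rw [← mul_assoc]
        linarith
      calc (n : ℝ) * Real.exp (1 * (k n : ℝ) - ((n - 1 : ℕ) : ℝ) * (p₂ * (1 - Real.exp (-1))))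
          ≤ n * Real.exp (L - L ^ 2 / 4) :=
            mul_le_mul_of_nonneg_left (Real.exp_le_exp.mpr h8) hn0.le
        _ = Real.exp (L + (L - L ^ 2 / 4)) := by rw [Real.exp_add, ← hexp]
        _ ≤ _ := by
            apply Real.exp_le_exp.mpr
            nlinarith
  have h0 : Tendsto (fun n => ENNReal.ofReal (err n)) atTop (𝓝 0) := by
    have := ENNReal.tendsto_ofReal herr0
    rwa [ENNReal.ofReal_zero] at this
  exact tendsto_of_tendsto_of_tendsto_of_le_of_le' tendsto_const_nhds h0
    (Eventually.of_forall fun n => bot_le) hev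

end Lower

/-- **The connectivity threshold of the mutual preference graph is at `c = 1`.**
Let the costs of the edges of `K_n` be i.i.d. with an arbitrary atomless law `μ n`
(for example exponential with mean `n`) and let `k n / log n → c`. If `c > 1` the graph is connected
with probability tending to one, if `c < 1` with probability tending to zero. -/
theorem result (μ : ℕ → Measure ℝ) [∀ n, IsProbabilityMeasure (μ n)]
    [∀ n, NullSingletonClass (μ n)] (c : ℝ) (k : ℕ → ℕ)
    (hk : Tendsto (fun n : ℕ => (k n : ℝ) / Real.log n) atTop (𝓝 c)) :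
    (1 < c → Tendsto (fun n : ℕ => (Measure.pi fun _ : Sym2 (Fin n) => μ n)
      {C | (prefGraph (k n) C).Connected}) atTop (𝓝 1)) ∧
    (c < 1 → Tendsto (fun n : ℕ => (Measure.pi fun _ : Sym2 (Fin n) => μ n)
      {C | (prefGraph (k n) C).Connected}) atTop (𝓝 0)) := by
  have hL : ∀ᶠ n : ℕ in atTop, 0 < Real.log n := tendsto_L.eventually_gt_atTop 0
  constructor
  · intro hc
    have h1 : ∀ᶠ n : ℕ in atTop, (1 + c) / 2 * Real.log n ≤ k n := by
      filter_upwards [hk.eventually (lt_mem_nhds (by linarith : (1 + c) / 2 < c)), hL] with n h h2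
      rw [lt_div_iff₀ h2] at h
      exact h.le
    exact upper' μ (by linarith) k h1
  · intro hc
    have h1 : ∀ᶠ n : ℕ in atTop, (k n : ℝ) ≤ max ((1 + c) / 2) (1 / 2) * Real.log n := by
      filter_upwards [hk.eventually (gt_mem_nhds (by
        have := le_max_left ((1 + c) / 2) (1 / 2)
        linarith : c < max ((1 + c) / 2) (1 / 2))), hL] with n h h2
      rw [div_lt_iff₀ h2] at h
      exact h.le
    exact lower μ (lt_of_lt_of_le (by norm_num) (le_max_right _ _))
      (max_lt (by linarith) (by norm_num)) k h1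

end Pool.Agent.Results.MP_ba8b4a_pr.ThresholdOne
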